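import Pool.Agent.K1H35.SH.Stm

/-! # Project SH (MP_0fd30f_pr): existence of `d`-regular graphs -/

namespace Pool.Agent.K1H1.SH

open Finset
open Pool.Agent.K1H35.SH

theorem mem_nb {n : ℕ} (G : SimpleGraph (Fin n)) (v x : Fin n) : x ∈ nb G v ↔ G.Adj v x := by
  simp [nb]

theorem mem_reg {n d : ℕ} (G : SimpleGraph (Fin n)) : G ∈ reg n d ↔ ∀ v, (nb G v).card = d := by
  simp [reg]

/-- Cayley graphs of `Fin n` -/
theorem cayley {n : ℕ} [NeZero n] (S : Finset (Fin n)) (h0 : (0 : Fin n) ∉ S)
    (hs : ∀ x ∈ S, -x ∈ S) : (reg n S.card).Nonempty := by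
  classical
  let G : SimpleGraph (Fin n) :=
    { Adj := fun x y => y - x ∈ S
      symm := ⟨fun x y h => by
        have := hs _ h
        rwa [neg_sub] at this⟩
      loopless := ⟨fun x h => h0 (by simpa using h)⟩ }
  refine ⟨G, (mem_reg G).mpr fun v => ?_⟩
  have : nb G v = S.image (fun s => s + v) := by
    ext x
    rw [mem_nb, Finset.mem_image]
    constructor
    · intro h
      exact ⟨x - v, h, by simp⟩
    · rintro ⟨s, hs', rfl⟩
      show s + v - v ∈ S
      simpa using hs'
  rw [this, Finset.card_image_of_injective]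
  intro a b hab
  exact add_right_cancel hab

theorem card_filter_val (n : ℕ) (P : ℕ → Prop) [DecidablePred P] :
    (univ.filter (fun x : Fin n => P x.val)).card = ((range n).filter P).card := by
  rw [Finset.card_filter, Finset.card_filter, Finset.sum_range]

/-- symmetric sets of residues -/
theorem exists_reg (n : ℕ) [NeZero n] (T : Finset ℕ) (h0 : 0 ∉ T) (hn : ∀ k ∈ T, k < n)
    (hs : ∀ k ∈ T, n - k ∈ T) : (reg n T.card).Nonempty := by
  classical
  have hc : (univ.filter (fun x : Fin n => x.val ∈ T)).card = T.card := by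
    rw [card_filter_val n (fun k => k ∈ T)]
    congr 1
    ext k
    simp only [Finset.mem_filter, Finset.mem_range]
    exact ⟨fun h => h.2, fun h => ⟨hn k h, h⟩⟩
  rw [← hc]
  apply cayley
  · simp [h0]
  · intro x hx
    simp only [Finset.mem_filter, Finset.mem_univ, true_and] at hx ⊢
    have h1 : x.val ≠ 0 := fun h => h0 (h ▸ hx)
    have h2 : (-x).val = n - x.val := by
      rw [Fin.val_neg']
      apply Nat.mod_eq_of_lt
      have := x.isLt
      omega
    rw [h2]
    exact hs _ hx

/-- `d`-regular graphs exist -/
theorem t_EX : S_EX := by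
  intro n d h2 he
  rcases Nat.eq_zero_or_pos n with rfl | hn
  · obtain rfl : d = 0 := by omega
    exact ⟨⊥, (mem_reg _).mpr fun v => v.elim0⟩
  have : NeZero n := ⟨hn.ne'⟩
  rcases Nat.even_or_odd' d with ⟨e, rfl | rfl⟩
  · have hcard : (Finset.Icc 1 e ∪ Finset.Ico (n - e) n).card = 2 * e := by
      rw [Finset.card_union_of_disjoint]
      · simp only [Nat.card_Icc, Nat.card_Ico]
        omega
      · rw [Finset.disjoint_left]
        intro k h3 h4
        simp only [Finset.mem_Icc, Finset.mem_Ico] at h3 h4
        omega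
    rw [← hcard]
    apply exists_reg
    · simp only [Finset.mem_union, Finset.mem_Icc, Finset.mem_Ico]
      omega
    · intro k
      simp only [Finset.mem_union, Finset.mem_Icc, Finset.mem_Ico]
      omega
    · intro k
      simp only [Finset.mem_union, Finset.mem_Icc, Finset.mem_Ico]
      omega
  · have hne : Even n := by
      rcases Nat.even_mul.mp he with h | h
      · exact h
      · exact absurd h (by simp)
    obtain ⟨m, rfl⟩ := hne
    have hcard : (Finset.Icc (m - e) (m + e)).card = 2 * e + 1 := by
      rw [Nat.card_Icc]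
      omega
    rw [← hcard]
    apply exists_reg
    · simp only [Finset.mem_Icc]
      omega
    · intro k
      simp only [Finset.mem_Icc]
      omega
    · intro k
      simp only [Finset.mem_Icc]
      omega

end Pool.Agent.K1H1.SH
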